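import Pool.Agent.H55.Suit3

namespace Pool.Agent.Results.MP_1c9ee6_al.NoSuitable

open Topology

/-- A gyrogroup structure on `G`. -/
structure Gyro (G : Type) where
  op : G → G → G
  one : G
  inv : G → G
  gyr : G → G → G ≃ G
  one_op : ∀ a, op one a = a
  inv_op : ∀ a, op (inv a) a = one
  gyr_op : ∀ a b x y, gyr a b (op x y) = op (gyr a b x) (gyr a b y)
  gyr_assoc : ∀ a b c, op a (op b c) = op (op a b) (gyr a b c)
  gyr_loop : ∀ a b, gyr a b = gyr (op a b) b

/-- subgyrogroup -/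
def IsSub {G : Type} (Γ : Gyro G) (H : Set G) : Prop :=
  H.Nonempty ∧ (∀ a ∈ H, Γ.inv a ∈ H) ∧ ∀ a ∈ H, ∀ b ∈ H, Γ.op a b ∈ H

/-- the subgyrogroup generated by `S` -/
def gen {G : Type} (Γ : Gyro G) (S : Set G) : Set G := ⋂₀ {H | IsSub Γ H ∧ S ⊆ H}

/-- strongly topological gyrogroup -/
def StrongTop {G : Type} [TopologicalSpace G] (Γ : Gyro G) : Prop :=
  Continuous (fun p : G × G => Γ.op p.1 p.2) ∧ Continuous Γ.inv ∧
    ∃ 𝒰 : Set (Set G), (𝓝 Γ.one).HasBasis (fun U => U ∈ 𝒰) id ∧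
      ∀ U ∈ 𝒰, ∀ x y, Γ.gyr x y '' U = U

/-- `S` is a suitable set for the subgyrogroup `K` with the subspace topology -/
def SuitableIn {G : Type} [TopologicalSpace G] (Γ : Gyro G) (K S : Set G) : Prop :=
  S ⊆ K ∧ IsDiscrete S ∧ IsClosed (Subtype.val ⁻¹' insert Γ.one S : Set K) ∧
    Dense (Subtype.val ⁻¹' gen Γ S : Set K)

theorem result : ∃ (G : Type) (_ : TopologicalSpace G) (Γ : Gyro G),
    StrongTop Γ ∧ (∃ _ : LinearOrder G, OrderTopology G) ∧
    (∃ S, IsClosed S ∧ SuitableIn Γ Set.univ S) ∧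
    ∃ H, IsSub Γ H ∧ ∀ S, ¬ SuitableIn Γ H S := by
  obtain ⟨W, _, _, _, h1, h3, -⟩ := Pool.Agent.H55.Suit.exists_W
  let Γ : Gyro (Pool.Agent.H55.Suit.Q W) :=
    { op := fun a b => a + b
      one := 0
      inv := fun a => -a
      gyr := fun _ _ => Equiv.refl _
      one_op := zero_add
      inv_op := neg_add_cancel
      gyr_op := fun _ _ _ _ => rfl
      gyr_assoc := fun a b c => (add_assoc a b c).symm
      gyr_loop := fun _ _ => rfl }
  refine ⟨Pool.Agent.H55.Suit.Q W, inferInstance, Γ,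
    ⟨continuous_add, continuous_neg, {U | U ∈ 𝓝 0}, Filter.basis_sets _, fun U _ x y => ?_⟩,
    ⟨inferInstance, Pool.Agent.H55.Suit.orderTopQ h1⟩,
    ⟨Pool.Agent.H55.Suit.SQ W, Pool.Agent.H55.Suit.SQ_closed h1, Set.subset_univ _,
      Pool.Agent.H55.Suit.SQ_discrete h1, ?_, ?_⟩,
    Pool.Agent.H55.Suit.KQ W, ⟨⟨0, (Pool.Agent.H55.Suit.KQ W).zero_mem⟩,
      fun a ha => (Pool.Agent.H55.Suit.KQ W).neg_mem ha,
      fun a ha b hb => (Pool.Agent.H55.Suit.KQ W).add_mem ha hb⟩, ?_⟩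
  · exact Set.image_id U
  · have : insert Γ.one (Pool.Agent.H55.Suit.SQ W) = Pool.Agent.H55.Suit.SQ W :=
      Set.insert_eq_of_mem (Or.inl rfl)
    rw [this]
    exact (Pool.Agent.H55.Suit.SQ_closed h1).preimage continuous_subtype_val
  · have : gen Γ (Pool.Agent.H55.Suit.SQ W) = Set.univ := by
      refine Set.eq_univ_of_forall fun x H hH => ?_
      have := hH.1.2.2
        (Pool.Agent.H55.Suit.mk (Pool.Agent.H55.Suit.q1 x - Pool.Agent.H55.Suit.q2 x) 0)
        (hH.2 (Or.inl rfl))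
        (Pool.Agent.H55.Suit.mk (Pool.Agent.H55.Suit.q2 x) (Pool.Agent.H55.Suit.q2 x))
        (hH.2 (Or.inr rfl))
      convert this using 1
      refine Pool.Agent.H55.Suit.Q_ext ?_ ?_
      · change _ = Pool.Agent.H55.Suit.q1 (_ + _)
        simp
      · change _ = Pool.Agent.H55.Suit.q2 (_ + _)
        simp
    rw [this]
    exact dense_univ
  · rintro S ⟨hS, hd, hc, hden⟩
    refine Pool.Agent.H55.Suit.KQ_no_suitable h1 h3 (Subtype.val ⁻¹' S)
      ⟨hd.preimage continuous_subtype_val.continuousOn Subtype.val_injective, ?_, ?_⟩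
    · have : (insert 0 (Subtype.val ⁻¹' S) : Set (Pool.Agent.H55.Suit.KQ W)) =
          Subtype.val ⁻¹' insert Γ.one S :=
        Set.ext fun x => or_congr Subtype.ext_iff Iff.rfl
      rw [this]
      exact hc
    · refine hden.mono fun x hx => ?_
      have := hx ((AddSubgroup.closure (Subtype.val ⁻¹' S : Set (Pool.Agent.H55.Suit.KQ W))).map
        (Pool.Agent.H55.Suit.KQ W).subtype)
        ⟨⟨⟨0, AddSubgroup.zero_mem _⟩, fun a ha => AddSubgroup.neg_mem _ ha,
          fun a ha b hb => AddSubgroup.add_mem _ ha hb⟩,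
          fun s hs => ⟨⟨s, hS hs⟩, AddSubgroup.subset_closure hs, rfl⟩⟩
      obtain ⟨y, hy, hyx⟩ := this
      have : y = x := Subtype.ext hyx
      exact this ▸ hy

end Pool.Agent.Results.MP_1c9ee6_al.NoSuitable
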